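import Pool.Agent.Work.MP_c383cf_pr.Main

namespace Pool.Agent.Results.MP_c383cf_pr.TwoPointGenerator

open Pool.Agent.Work.MP_c383cf_pr

/-- For fixed `0 < p < 1`, conditionally on the Jacobian of `G(n, p)` being cyclic, with
probability tending to one it is generated by the class of `e_x - e_y` for some `x ≠ y`. -/
theorem result (p : unitInterval) (h0 : 0 < p) (h1 : p < 1) :
    Filter.Tendsto (fun n : ℕ =>
      (ProbabilityTheory.cond (SimpleGraph.binomialRandom (Fin n) p)
        {G | IsAddCyclic (Jac G)}).real
        {G | ∃ x y : Fin n, x ≠ y ∧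
          AddSubgroup.zmultiples (QuotientAddGroup.mk (delta x y) : Jac G) = ⊤})
      Filter.atTop (nhds 1) := by
  simp only [cond_eq]
  exact ratio h0 h1

end Pool.Agent.Results.MP_c383cf_pr.TwoPointGenerator
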